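import Pool.Agent.N728.QU.Def
import Pool.Agent.N319.QL.AVG

set_option autoImplicit false

/-! # Project QU, task AVG: the average of `hq ^ 4` over the parallelograms, uniformly in `c`
(after N319/QL/AVG.lean by helper319) -/

namespace Pool.Agent.N701.QU

open Finset Pool.Agent.N728.QL Pool.Agent.N728.QG Pool.Agent.N728.QU
open Pool.Agent.N319.QL (card_block exp_sum_le exp_half hq_split hq_nonneg hq_tail xs_bound ts_bound
  Bx sum_Bx card_Bx zero_part prod_mono_real)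

/-- the threshold for the primes -/
def Th : ℕ := 2 ^ 257

theorem Th_pos : 0 < Th := Nat.pow_pos (n := 257) (Nat.succ_pos 1)

/-- the weights -/
noncomputable def wt (p : ℕ) : ℝ := 64 / (2 ^ Nat.log 2 p * (Nat.log 2 p : ℝ))

theorem wt_nonneg (p : ℕ) : 0 ≤ wt p := by unfold wt; positivity

theorem log_ge {p : ℕ} (h : Th ≤ p) : 257 ≤ Nat.log 2 p :=
  Nat.le_log_of_pow_le one_lt_two h

theorem sum_wt_le (Q : Finset ℕ) (hQ : ∀ p ∈ Q, p.Prime ∧ Th ≤ p) : ∑ p ∈ Q, wt p ≤ 1 := by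
  set n : ℕ := 256 + ∑ p ∈ Q, Nat.log 2 p with hn
  have hmaps : ∀ p ∈ Q, Nat.log 2 p ∈ Ioc 256 n := by
    intro p hp
    rw [mem_Ioc]
    have h1 := log_ge (hQ p hp).2
    have h2 : Nat.log 2 p ≤ ∑ p ∈ Q, Nat.log 2 p :=
      Finset.single_le_sum (f := fun p => Nat.log 2 p) (fun _ _ => Nat.zero_le _) hp
    omega
  rw [← Finset.sum_fiberwise_of_maps_to hmaps]
  have hk : ∀ k ∈ Ioc 256 n, ∑ p ∈ Q with Nat.log 2 p = k, wt p ≤ 256 * ((k : ℝ) ^ 2)⁻¹ := by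
    intro k hk
    rw [mem_Ioc] at hk
    have hk0 : (0 : ℝ) < k := by exact_mod_cast (by omega : 0 < k)
    have h1 : ∑ p ∈ Q with Nat.log 2 p = k, wt p =
        ((Q.filter (fun p => Nat.log 2 p = k)).card : ℝ) * (64 / (2 ^ k * (k : ℝ))) := by
      rw [← nsmul_eq_mul, ← Finset.sum_const]
      refine Finset.sum_congr rfl fun p hp => ?_
      rw [wt, (Finset.mem_filter.1 hp).2]
    have h2 := card_block k (Q.filter (fun p => Nat.log 2 p = k)) (fun p hp =>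
      ⟨(hQ p (Finset.mem_filter.1 hp).1).1, (Finset.mem_filter.1 hp).2⟩)
    have h3 : ((Q.filter (fun p => Nat.log 2 p = k)).card : ℝ) * k ≤ 2 ^ (k + 2) := by
      exact_mod_cast h2
    rw [h1]
    have h4 : (0 : ℝ) < 2 ^ k := by positivity
    have h5 : ((Q.filter (fun p => Nat.log 2 p = k)).card : ℝ) ≤ 2 ^ (k + 2) / k := by
      rw [le_div_iff₀ hk0]; exact h3
    calc ((Q.filter (fun p => Nat.log 2 p = k)).card : ℝ) * (64 / (2 ^ k * (k : ℝ)))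
        ≤ (2 ^ (k + 2) / k) * (64 / (2 ^ k * (k : ℝ))) :=
          mul_le_mul_of_nonneg_right h5 (by positivity)
      _ = 256 * ((k : ℝ) ^ 2)⁻¹ := by
          rw [pow_add]; field_simp; norm_num
  calc ∑ j ∈ Ioc 256 n, ∑ p ∈ Q with Nat.log 2 p = j, wt p
      ≤ ∑ k ∈ Ioc 256 n, 256 * ((k : ℝ) ^ 2)⁻¹ := Finset.sum_le_sum hk
    _ = 256 * ∑ k ∈ Ioc 256 n, ((k : ℝ) ^ 2)⁻¹ := by rw [Finset.mul_sum]
    _ ≤ 256 * (((256 : ℕ) : ℝ)⁻¹ - (n : ℝ)⁻¹) := by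
        have := sum_Ioc_inv_sq_le_sub (α := ℝ) (k := 256) (n := n) (by norm_num) (by omega)
        exact mul_le_mul_of_nonneg_left this (by norm_num)
    _ ≤ 1 := by
        have : (0 : ℝ) ≤ (n : ℝ)⁻¹ := by positivity
        push_cast
        linarith

theorem wt_exp {p : ℕ} (hp : Th ≤ p) : Real.exp (32 / ((p : ℝ) * wt p)) ≤ p := by
  set k := Nat.log 2 p with hk
  have hk1 : 257 ≤ k := log_ge hp
  have hp0 : p ≠ 0 := by
    rintro rfl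
    have : (0 : ℕ) < Th := Th_pos
    omega
  have hkp : (2 : ℝ) ^ k ≤ p := by exact_mod_cast Nat.pow_log_le_self 2 hp0
  have hk0 : (0 : ℝ) < k := by exact_mod_cast (by omega : 0 < k)
  have hpp : (0 : ℝ) < p := by exact_mod_cast Nat.pos_of_ne_zero hp0
  have h1 : 32 / ((p : ℝ) * wt p) ≤ (k : ℝ) * (1 / 2) := by
    unfold wt
    rw [← hk]
    have h2k : (0 : ℝ) < 2 ^ k := by positivity
    have e : 32 / ((p : ℝ) * (64 / (2 ^ k * (k : ℝ)))) = (2 ^ k / p) * (k * (1 / 2)) := by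
      field_simp; norm_num
    rw [e]
    have h3 : (2 : ℝ) ^ k / p ≤ 1 := by rw [div_le_one hpp]; exact hkp
    calc ((2 : ℝ) ^ k / p) * (k * (1 / 2)) ≤ 1 * (k * (1 / 2)) :=
          mul_le_mul_of_nonneg_right h3 (by positivity)
      _ = _ := one_mul _
  calc Real.exp (32 / ((p : ℝ) * wt p)) ≤ Real.exp ((k : ℝ) * (1 / 2)) := Real.exp_le_exp.2 h1
    _ = Real.exp (1 / 2) ^ k := Real.exp_nat_mul _ _
    _ ≤ 2 ^ k := pow_le_pow_left₀ (Real.exp_pos _).le exp_half k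
    _ ≤ p := hkp

theorem wt_pos {p : ℕ} (hp : Th ≤ p) : 0 < wt p := by
  have hk1 : 257 ≤ Nat.log 2 p := log_ge hp
  have hk0 : (0 : ℝ) < (Nat.log 2 p : ℝ) := by exact_mod_cast (by omega : 0 < Nat.log 2 p)
  unfold wt; positivity

/-- a product over large primes is bounded by a sum over these primes -/
theorem prod_le (Q : Finset ℕ) (hQ : ∀ p ∈ Q, p.Prime ∧ Th ≤ p) :
    ∏ p ∈ Q, (1 + ((1 + 8 / (p : ℝ)) ^ 4 - 1)) ≤ 1 + ∑ p ∈ Q, wt p * p := by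
  have h1 : ∀ p ∈ Q, 1 + ((1 + 8 / (p : ℝ)) ^ 4 - 1) ≤
      Real.exp (wt p * (32 / ((p : ℝ) * wt p))) := by
    intro p hp
    have hp0 : (0 : ℝ) < p := by exact_mod_cast (hQ p hp).1.pos
    have hw := wt_pos (hQ p hp).2
    have e : wt p * (32 / ((p : ℝ) * wt p)) = 4 * (8 / p) := by
      field_simp; norm_num
    rw [e]
    have h2 := Real.add_one_le_exp (8 / (p : ℝ))
    have h3 : (0 : ℝ) ≤ 8 / p := by positivity
    calc 1 + ((1 + 8 / (p : ℝ)) ^ 4 - 1) = (8 / p + 1) ^ 4 := by ring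
      _ ≤ Real.exp (8 / (p : ℝ)) ^ 4 := pow_le_pow_left₀ (by positivity) h2 4
      _ = Real.exp (4 * (8 / p)) := by
          rw [← Real.exp_nat_mul]; norm_num
  calc ∏ p ∈ Q, (1 + ((1 + 8 / (p : ℝ)) ^ 4 - 1))
      ≤ ∏ p ∈ Q, Real.exp (wt p * (32 / ((p : ℝ) * wt p))) :=
        Finset.prod_le_prod (fun p _ => by
          have : (0 : ℝ) ≤ 8 / p := by positivity
          have h4 : 1 ≤ (1 + 8 / (p : ℝ)) ^ 4 := one_le_pow₀ (by linarith)
          linarith) h1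
    _ = Real.exp (∑ p ∈ Q, wt p * (32 / ((p : ℝ) * wt p))) := (Real.exp_sum _ _).symm
    _ ≤ 1 + ∑ p ∈ Q, wt p * Real.exp (32 / ((p : ℝ) * wt p)) :=
        exp_sum_le Q wt _ (fun p _ => wt_nonneg p) (sum_wt_le Q hQ)
    _ ≤ 1 + ∑ p ∈ Q, wt p * p := by
        gcongr with p hp
        · exact wt_nonneg p
        · exact wt_exp (hQ p hp).2

theorem G_le {q : ℝ} (hq : 1 ≤ q) : (1 + 8 / q) ^ 4 - 1 ≤ 6560 / q := by
  have hq0 : 0 < q := by linarith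
  obtain ⟨u, hu⟩ : ∃ u, u = 8 / q := ⟨_, rfl⟩
  have hu0 : 0 ≤ u := by rw [hu]; positivity
  have hu8 : u ≤ 8 := by rw [hu, div_le_iff₀ hq0]; linarith
  have h2 : u ^ 2 ≤ 8 ^ 2 := pow_le_pow_left₀ hu0 hu8 2
  have h3 : u ^ 3 ≤ 8 ^ 3 := pow_le_pow_left₀ hu0 hu8 3
  have e : 6560 / q = u * 820 := by rw [hu]; ring
  rw [← hu, e]
  have h4 : (1 + u) ^ 4 - 1 = u * (4 + 6 * u + 4 * u ^ 2 + u ^ 3) := by ring
  rw [h4]
  exact mul_le_mul_of_nonneg_left (by linarith) hu0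

theorem prod_sub_one_le (Q : Finset ℕ) (hQ : ∀ p ∈ Q, p.Prime ∧ Th ≤ p) :
    (∏ p ∈ Q, (1 + 8 / (p : ℝ))) ^ 4 - 1 ≤
      ∑ q ∈ Q, (6560 / (q : ℝ)) * (1 + ∑ p ∈ Q with p < q, wt p * p) := by
  have e : (∏ p ∈ Q, (1 + 8 / (p : ℝ))) ^ 4 =
      ∏ p ∈ Q, (1 + ((1 + 8 / (p : ℝ)) ^ 4 - 1)) := by
    rw [← Finset.prod_pow]
    exact Finset.prod_congr rfl fun p _ => by ring
  have hG : ∀ p : ℕ, 0 ≤ (1 + 8 / (p : ℝ)) ^ 4 - 1 := by
    intro p
    have : (0 : ℝ) ≤ 8 / p := by positivity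
    have h4 : 1 ≤ (1 + 8 / (p : ℝ)) ^ 4 := one_le_pow₀ (by linarith)
    linarith
  rw [e, Finset.prod_one_add_ordered, add_sub_cancel_left]
  refine Finset.sum_le_sum fun q hq => ?_
  have hq0 : (0 : ℝ) < q := by exact_mod_cast (hQ q hq).1.pos
  have hq1 : (1 : ℝ) ≤ q := by exact_mod_cast (hQ q hq).1.one_lt.le
  refine mul_le_mul (G_le hq1) ?_ ?_ (by positivity)
  · exact prod_le _ fun p hp => hQ p (Finset.mem_filter.1 hp).1
  · exact Finset.prod_nonneg fun p _ => by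
      have := hG p
      linarith

/-- the average over a finite family -/
theorem avg_core {Ω : Type} (O : Finset Ω) (D : Ω → ℤ) (P : Finset ℕ) (s : ℕ) (hs : 1 ≤ s)
    (hP : ∀ p ∈ P, p.Prime ∧ Th ≤ p ∧ s < p) (N K1 : ℝ) (hN : 0 ≤ N) (hK1 : 0 ≤ K1)
    (h1 : ∀ p ∈ P, ∑ ω ∈ O, (if (p : ℤ) ∣ D ω then (1 : ℝ) else 0) ≤ K1 * 20 / p * N)
    (h2 : ∀ p ∈ P, ∀ q ∈ P, p < q →
      ∑ ω ∈ O, (if (p : ℤ) ∣ D ω ∧ (q : ℤ) ∣ D ω then (1 : ℝ) else 0) ≤ K1 * 400 / (p * q) * N) :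
    ∑ ω ∈ O, ((∏ p ∈ P.filter (fun p : ℕ => (p : ℤ) ∣ D ω), (1 + 8 / (p : ℝ))) ^ 4 - 1) ≤
      2755200 * K1 / s * N := by
  have hs0 : (0 : ℝ) < s := by exact_mod_cast hs
  have hpt : ∀ ω ∈ O, (∏ p ∈ P.filter (fun p : ℕ => (p : ℤ) ∣ D ω), (1 + 8 / (p : ℝ))) ^ 4 - 1 ≤
      ∑ q ∈ P, (6560 / (q : ℝ)) * ((if (q : ℤ) ∣ D ω then (1 : ℝ) else 0) +
        ∑ p ∈ P with p < q, wt p * p * (if (p : ℤ) ∣ D ω ∧ (q : ℤ) ∣ D ω then (1 : ℝ) else 0)) := by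
    intro ω _
    refine (prod_sub_one_le _ fun p hp => ?_).trans ?_
    · exact ⟨(hP p (Finset.mem_filter.1 hp).1).1, (hP p (Finset.mem_filter.1 hp).1).2.1⟩
    · rw [Finset.sum_filter]
      refine Finset.sum_le_sum fun q hq => ?_
      by_cases hd : (q : ℤ) ∣ D ω
      · simp only [hd, if_true, and_true]
        apply le_of_eq
        congr 2
        rw [Finset.filter_filter, Finset.sum_filter, Finset.sum_filter]
        refine Finset.sum_congr rfl fun p _ => ?_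
        by_cases h3 : (p : ℤ) ∣ D ω <;> by_cases h4 : p < q <;> simp [h3, h4]
      · simp [hd]
  refine (Finset.sum_le_sum hpt).trans ?_
  rw [Finset.sum_comm]
  have hq : ∀ q ∈ P, ∑ ω ∈ O, (6560 / (q : ℝ)) * ((if (q : ℤ) ∣ D ω then (1 : ℝ) else 0) +
        ∑ p ∈ P with p < q, wt p * p * (if (p : ℤ) ∣ D ω ∧ (q : ℤ) ∣ D ω then (1 : ℝ) else 0)) ≤
      2755200 * K1 * N * ((q : ℝ) ^ 2)⁻¹ := by
    intro q hq
    have hq0 : (0 : ℝ) < q := by exact_mod_cast (hP q hq).1.pos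
    rw [← Finset.mul_sum, Finset.sum_add_distrib, Finset.sum_comm]
    have h3 : ∑ p ∈ P with p < q, ∑ ω ∈ O,
        wt p * p * (if (p : ℤ) ∣ D ω ∧ (q : ℤ) ∣ D ω then (1 : ℝ) else 0) ≤
        ∑ p ∈ P with p < q, wt p * (K1 * 400 / q * N) := by
      refine Finset.sum_le_sum fun p hp => ?_
      rw [Finset.mem_filter] at hp
      have hp0 : (0 : ℝ) < p := by exact_mod_cast (hP p hp.1).1.pos
      rw [← Finset.mul_sum]
      calc wt p * p * ∑ ω ∈ O, (if (p : ℤ) ∣ D ω ∧ (q : ℤ) ∣ D ω then (1 : ℝ) else 0)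
          ≤ wt p * p * (K1 * 400 / (p * q) * N) :=
            mul_le_mul_of_nonneg_left (h2 p hp.1 q hq hp.2)
              (mul_nonneg (wt_nonneg p) hp0.le)
        _ = wt p * (K1 * 400 / q * N) := by field_simp
    have h4 : ∑ p ∈ P with p < q, wt p * (K1 * 400 / q * N) ≤ K1 * 400 / q * N := by
      rw [← Finset.sum_mul]
      have h5 := sum_wt_le (P.filter (fun p => p < q)) fun p hp =>
        ⟨(hP p (Finset.mem_filter.1 hp).1).1, (hP p (Finset.mem_filter.1 hp).1).2.1⟩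
      have h6 : 0 ≤ K1 * 400 / q * N := by positivity
      nlinarith
    have h7 : (6560 / (q : ℝ)) * (∑ ω ∈ O, (if (q : ℤ) ∣ D ω then (1 : ℝ) else 0) +
        ∑ p ∈ P with p < q, ∑ ω ∈ O,
          wt p * p * (if (p : ℤ) ∣ D ω ∧ (q : ℤ) ∣ D ω then (1 : ℝ) else 0)) ≤
        (6560 / (q : ℝ)) * (K1 * 20 / q * N + K1 * 400 / q * N) :=
      mul_le_mul_of_nonneg_left (add_le_add (h1 q hq) (h3.trans h4)) (by positivity)
    refine h7.trans (le_of_eq ?_)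
    field_simp; ring
  refine (Finset.sum_le_sum hq).trans ?_
  rw [← Finset.mul_sum]
  have h8 : ∑ q ∈ P, ((q : ℝ) ^ 2)⁻¹ ≤ (s : ℝ)⁻¹ := by
    have h9 : P ⊆ Ioc s (s + ∑ p ∈ P, p) := by
      intro p hp
      rw [mem_Ioc]
      have := Finset.single_le_sum (f := fun p : ℕ => p) (fun _ _ => Nat.zero_le _) hp
      have h10 := (hP p hp).2.2
      omega
    calc ∑ q ∈ P, ((q : ℝ) ^ 2)⁻¹ ≤ ∑ q ∈ Ioc s (s + ∑ p ∈ P, p), ((q : ℝ) ^ 2)⁻¹ :=
          Finset.sum_le_sum_of_subset_of_nonneg h9 fun _ _ _ => by positivity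
      _ ≤ (s : ℝ)⁻¹ - ((s + ∑ p ∈ P, p : ℕ) : ℝ)⁻¹ :=
          sum_Ioc_inv_sq_le_sub (by omega) (by omega)
      _ ≤ (s : ℝ)⁻¹ := by
          have : (0 : ℝ) ≤ ((s + ∑ p ∈ P, p : ℕ) : ℝ)⁻¹ := by positivity
          linarith
  calc 2755200 * K1 * N * ∑ q ∈ P, ((q : ℝ) ^ 2)⁻¹ ≤ 2755200 * K1 * N * (s : ℝ)⁻¹ :=
        mul_le_mul_of_nonneg_left h8 (by positivity)
    _ = 2755200 * K1 / s * N := by ring

/-- the size of the discriminant -/
theorem Dl_bound (c : ℤ) (M : ℕ) (x θ : Fin 4 → ℤ) (B : ℤ) (hB : 2 ≤ B)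
    (hx : ∀ i, |x i| ≤ B ^ 3) (hθ : ∀ i, |θ i| ≤ B ^ 3) (hM : (M : ℤ) ≤ B) (hc : |c| ≤ B ^ 3) :
    |Dl c M x θ| ≤ B ^ 204 := by
  have hB0 : 0 ≤ B := by omega
  have hB1 : 1 ≤ B := by omega
  have h1 : |∏ i, x i| ≤ (B ^ 3) ^ 4 := by
    rw [Finset.abs_prod]
    calc ∏ i, |x i| ≤ ∏ _i : Fin 4, B ^ 3 :=
          Finset.prod_le_prod (fun _ _ => abs_nonneg _) fun i _ => hx i
      _ = (B ^ 3) ^ 4 := by rw [Finset.prod_const, Finset.card_univ, Fintype.card_fin]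
  have h2 : ∀ ij : Fin 4 × Fin 4,
      |(M : ℤ) * x ij.1 * x ij.2 * (θ ij.1 - θ ij.2) + c * (x ij.2 - x ij.1)| ≤ B ^ 12 := by
    intro ij
    have e1 : |(M : ℤ) * x ij.1 * x ij.2 * (θ ij.1 - θ ij.2)| ≤
        B * B ^ 3 * B ^ 3 * (B ^ 3 + B ^ 3) := by
      rw [abs_mul, abs_mul, abs_mul, Nat.abs_cast]
      have := (abs_sub (θ ij.1) (θ ij.2)).trans (add_le_add (hθ ij.1) (hθ ij.2))
      have a1 := hx ij.1
      have a2 := hx ij.2
      gcongr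
    have e2 : |c * (x ij.2 - x ij.1)| ≤ B ^ 3 * (B ^ 3 + B ^ 3) := by
      rw [abs_mul]
      have := (abs_sub (x ij.2) (x ij.1)).trans (add_le_add (hx ij.2) (hx ij.1))
      gcongr
    have e3 : B ^ 6 ≤ B ^ 10 := pow_le_pow_right₀ hB1 (by norm_num)
    have e4 : 4 * B ^ 10 ≤ B ^ 2 * B ^ 10 := by
      have : 4 ≤ B ^ 2 := by nlinarith
      gcongr
    calc |(M : ℤ) * x ij.1 * x ij.2 * (θ ij.1 - θ ij.2) + c * (x ij.2 - x ij.1)|
        ≤ B * B ^ 3 * B ^ 3 * (B ^ 3 + B ^ 3) + B ^ 3 * (B ^ 3 + B ^ 3) :=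
          (abs_add_le _ _).trans (add_le_add e1 e2)
      _ = 2 * B ^ 10 + 2 * B ^ 6 := by ring
      _ ≤ 4 * B ^ 10 := by linarith
      _ ≤ B ^ 2 * B ^ 10 := e4
      _ = B ^ 12 := by ring
  unfold Dl
  rw [abs_mul]
  have h3 : |∏ ij ∈ (univ : Finset (Fin 4 × Fin 4)).filter (fun ij => ij.1 < ij.2),
      ((M : ℤ) * x ij.1 * x ij.2 * (θ ij.1 - θ ij.2) + c * (x ij.2 - x ij.1))| ≤ (B ^ 12) ^ 16 := by
    rw [Finset.abs_prod]
    refine (Finset.prod_le_prod (fun _ _ => abs_nonneg _) fun ij _ => h2 ij).trans ?_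
    rw [Finset.prod_const]
    refine pow_le_pow_right₀ (one_le_pow₀ hB1) ?_
    refine (Finset.card_filter_le _ _).trans ?_
    simp
  calc _ ≤ (B ^ 3) ^ 4 * (B ^ 12) ^ 16 := mul_le_mul h1 h3 (abs_nonneg _) (by positivity)
    _ = B ^ 204 := by ring

/-- the counting statement of AV1 with a given constant -/
def AV (c : ℤ) (K : ℝ) : Prop := ∀ (M A A' : ℕ) (C C' : ℤ) (X R R' : ℕ), C ≠ 0 → C' ≠ 0 →
  1 ≤ M → 1 ≤ A → 1 ≤ A' → 1 ≤ X → 1 ≤ R → 1 ≤ R' →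
  (∀ d : ℕ, Squarefree d → (∀ p : ℕ, p.Prime → p ∣ d → ¬ p ∣ M * A * A' ∧ ¬ (p : ℤ) ∣ C * C') →
    d ≤ X → d ≤ R → d ≤ R' →
    (∑ ω ∈ Bx X R R', (if (d : ℤ) ∣ Dl c M (xs A A' ω.1 ω.2.1 ω.2.2) (ts C C' ω.2.1 ω.2.2) then
      (1 : ℝ) else 0)) ≤ K * 20 ^ d.primeFactors.card / d * ((X : ℝ) * R * R'))

theorem avg_big (K1 : ℝ) (hK1 : 0 < K1) (hAA : ∀ c : ℤ, c ≠ 0 → AV c K1) (s M A A' : ℕ) (C C' : ℤ)
    (hs : Th ≤ s) (hM : 1 ≤ M) (hA1 : 1 ≤ A) (hA2 : 1 ≤ A') (hC : C ≠ 0) (hC' : C' ≠ 0)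
    (hp : ∀ p : ℕ, p.Prime → s < p → ¬ p ∣ M * A * A' ∧ ¬ (p : ℤ) ∣ C * C') :
    ∃ B0 : ℕ, ∀ B : ℕ, B0 ≤ B → ∀ (c : ℤ) (X R R' : ℕ), c ≠ 0 → c.natAbs ≤ B ^ 3 →
      B ≤ X ^ 4 → B ≤ R ^ 4 → B ≤ R' ^ 4 →
      X ≤ B ^ 2 → R ≤ B ^ 2 → R' ≤ B ^ 2 →
      ∑ ω ∈ Bx X R R', (if Dl c M (xs A A' ω.1 ω.2.1 ω.2.2) (ts C C' ω.2.1 ω.2.2) = 0 then 0 else
        hq s (Dl c M (xs A A' ω.1 ω.2.1 ω.2.2) (ts C C' ω.2.1 ω.2.2)) ^ 4 - 1) ≤
        (5510400 * K1 + 9) / s * ((X : ℝ) * R * R') := by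
  have hs0 : 0 < s := lt_of_lt_of_le Th_pos hs
  have hs1 : (0 : ℝ) < s := by exact_mod_cast hs0
  obtain ⟨m, hm⟩ : ∃ m : ℕ, m = 2 * 8 * 204 := ⟨_, rfl⟩
  -- the large primes
  obtain ⟨z1, hz1⟩ : ∃ z1 : ℕ, ∀ z : ℕ, z1 ≤ z →
      ((1 + 8 / (z : ℝ)) ^ m) ^ 4 ≤ 1 + 1 / (s : ℝ) := by
    have h1 : Filter.Tendsto (fun z : ℕ => ((1 + 8 / (z : ℝ)) ^ m) ^ 4) Filter.atTop
        (nhds (((1 + 0) ^ m) ^ 4)) :=
      ((tendsto_const_nhds.add (tendsto_const_div_atTop_nhds_zero_nat 8)).pow m).pow 4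
    have h2 : (((1 + 0 : ℝ)) ^ m) ^ 4 < 1 + 1 / (s : ℝ) := by
      have : (0 : ℝ) < 1 / s := by positivity
      rw [add_zero, one_pow, one_pow]; linarith
    have h3 := (h1.eventually_lt_const h2)
    rw [Filter.eventually_atTop] at h3
    obtain ⟨z1, h3⟩ := h3
    exact ⟨z1, fun z hz => (h3 z hz).le⟩
  set z2 : ℕ := max z1 s + 3 with hz2
  set E : ℕ := 2 + A + A' + C.natAbs + C'.natAbs + M with hE
  refine ⟨max (z2 ^ 8) E, fun B hB c X R R' hc0 hcB hX hR hR' hX2 hR2 hR2' => ?_⟩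
  have hA := hAA c hc0
  set z : ℕ := Nat.nthRoot 8 B with hz
  have hz3 : z2 ≤ z := (Nat.le_nthRoot_iff (by norm_num)).2 ((le_max_left _ _).trans hB)
  have hzB : z ^ 8 ≤ B := (Nat.le_nthRoot_iff (by norm_num)).1 le_rfl
  have hBz : B < (z + 1) ^ 8 := Nat.lt_pow_nthRoot_add_one (by norm_num) B
  have hzz1 : z1 ≤ z := by omega
  have hsz : s ≤ z := by omega
  have hz4 : 3 ≤ z := by omega
  have hB1 : 1 ≤ B := le_trans (Nat.one_le_pow _ _ (by omega)) hzB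
  have hsq : ∀ Y : ℕ, B ≤ Y ^ 4 → z ^ 2 ≤ Y := by
    intro Y hY
    have : (z ^ 2) ^ 4 ≤ Y ^ 4 := by
      calc (z ^ 2) ^ 4 = z ^ 8 := by ring
        _ ≤ Y ^ 4 := hzB.trans hY
    exact (Nat.pow_le_pow_iff_left (by norm_num)).1 this
  have hzX := hsq X hX
  have hzR := hsq R hR
  have hzR' := hsq R' hR'
  have hX1 : 1 ≤ X := le_trans (Nat.one_le_pow _ _ (by omega)) hzX
  have hR1 : 1 ≤ R := le_trans (Nat.one_le_pow _ _ (by omega)) hzR
  have hR1' : 1 ≤ R' := le_trans (Nat.one_le_pow _ _ (by omega)) hzR'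
  have hz5 : z + 1 ≤ z ^ 2 := by
    rw [pow_two]
    calc z + 1 ≤ 3 * z := by omega
      _ ≤ z * z := Nat.mul_le_mul_right z hz4
  have hzz : z ≤ z ^ 2 := by omega
  set N : ℝ := (X : ℝ) * R * R' with hN
  have hN0 : 0 ≤ N := by positivity
  set D : ℤ × ℤ × ℤ → ℤ := fun ω => Dl c M (xs A A' ω.1 ω.2.1 ω.2.2) (ts C C' ω.2.1 ω.2.2) with hD
  set P : Finset ℕ := (Ioc s z).filter Nat.Prime with hP
  have hPm : ∀ p ∈ P, p.Prime ∧ s < p ∧ p ≤ z := by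
    intro p hp
    rw [hP, Finset.mem_filter, mem_Ioc] at hp
    exact ⟨hp.2, hp.1.1, hp.1.2⟩
  have hav := hA M A A' C C' X R R' hC hC' hM hA1 hA2 hX1 hR1 hR1'
  -- the size of the discriminant
  have hDb : ∀ ω ∈ Bx X R R', (D ω).natAbs ≤ z ^ m := by
    intro ω hω
    have hEB : E ≤ B := (le_max_right _ _).trans hB
    simp only [Bx, Finset.mem_product, Finset.mem_Icc] at hω
    obtain ⟨⟨hx1, hx2⟩, ⟨ht1, ht2⟩, hr1, hr2⟩ := hω
    have hX2' : (X : ℤ) ≤ (B : ℤ) ^ 2 := by exact_mod_cast hX2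
    have hR2a : (R : ℤ) ≤ (B : ℤ) ^ 2 := by exact_mod_cast hR2
    have hR2b : (R' : ℤ) ≤ (B : ℤ) ^ 2 := by exact_mod_cast hR2'
    have eC : |C| = (C.natAbs : ℤ) := Int.abs_eq_natAbs C
    have eC' : |C'| = (C'.natAbs : ℤ) := Int.abs_eq_natAbs C'
    have ec : |c| ≤ (B : ℤ) ^ 3 := by
      rw [Int.abs_eq_natAbs]
      exact_mod_cast hcB
    have h1 : |D ω| ≤ (B : ℤ) ^ 204 := by
      refine Dl_bound c M _ _ (B : ℤ) (by omega) ?_ ?_ (by omega) ec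
      · refine xs_bound A A' _ _ _ _ ?_ ?_ ?_ ?_
        · rw [abs_le]; constructor <;> linarith
        · rw [abs_le]; constructor <;> linarith
        · rw [abs_le]; constructor <;> linarith
        · omega
      · refine ts_bound C C' _ _ _ ?_ ?_ ?_
        · rw [abs_le]; constructor <;> linarith
        · rw [abs_le]; constructor <;> linarith
        · omega
    have h2 : (D ω).natAbs ≤ B ^ 204 := by
      have : ((D ω).natAbs : ℤ) ≤ (B : ℤ) ^ 204 := by rw [Int.natCast_natAbs]; exact h1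
      exact_mod_cast this
    calc (D ω).natAbs ≤ B ^ 204 := h2
      _ ≤ ((z + 1) ^ 8) ^ 204 := pow_le_pow_left₀ (Nat.zero_le _) hBz.le 204
      _ ≤ ((z ^ 2) ^ 8) ^ 204 := by
          exact pow_le_pow_left₀ (Nat.zero_le _) (pow_le_pow_left₀ (Nat.zero_le _) hz5 8) 204
      _ = z ^ m := by rw [← pow_mul, ← pow_mul, hm]
  -- the pointwise inequality
  have hpt : ∀ ω ∈ Bx X R R', (if D ω = 0 then (0 : ℝ) else hq s (D ω) ^ 4 - 1) ≤
      2 * ((∏ p ∈ P.filter (fun p : ℕ => (p : ℤ) ∣ D ω), (1 + 8 / (p : ℝ))) ^ 4 - 1) + 1 / s := by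
    intro ω hω
    set g : ℝ := ∏ p ∈ P.filter (fun p : ℕ => (p : ℤ) ∣ D ω), (1 + 8 / (p : ℝ)) with hg
    have hg1 : 1 ≤ g := by
      have h1 : ∏ p ∈ P.filter (fun p : ℕ => (p : ℤ) ∣ D ω), (1 : ℝ) ≤ g := by
        refine Finset.prod_le_prod (fun _ _ => zero_le_one) fun p _ => ?_
        have : (0 : ℝ) ≤ 8 / p := by positivity
        linarith
      rwa [Finset.prod_const_one] at h1
    have hg2 : 1 ≤ g ^ 4 := one_le_pow₀ hg1
    have hs2 : (0 : ℝ) < 1 / s := by positivity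
    have hs3 : 1 / (s : ℝ) ≤ 1 := by
      rw [div_le_one hs1]; exact_mod_cast hs0
    by_cases h0 : D ω = 0
    · rw [if_pos h0]; linarith
    · rw [if_neg h0, hq_split s z hsz _ h0, mul_pow]
      have h2 := hq_tail z m (D ω) h0 (by omega) (hDb ω hω)
      have h3 : hq z (D ω) ^ 4 ≤ 1 + 1 / (s : ℝ) :=
        (pow_le_pow_left₀ (hq_nonneg _ _) h2 4).trans (hz1 z hzz1)
      have h4 : g ^ 4 * hq z (D ω) ^ 4 ≤ g ^ 4 * (1 + 1 / (s : ℝ)) :=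
        mul_le_mul_of_nonneg_left h3 (by positivity)
      have h5 : 0 ≤ (g ^ 4 - 1) * (1 - 1 / (s : ℝ)) :=
        mul_nonneg (by linarith) (by linarith)
      have h6 : g ^ 4 * (1 + 1 / (s : ℝ)) - 1 = 2 * (g ^ 4 - 1) + 1 / s -
        (g ^ 4 - 1) * (1 - 1 / (s : ℝ)) := by ring
      linarith
  have hcore := avg_core (Bx X R R') D P s hs0 (fun p hp => ⟨(hPm p hp).1,
    hs.trans (hPm p hp).2.1.le, (hPm p hp).2.1⟩) N K1 hN0 hK1.le ?_ ?_
  · calc ∑ ω ∈ Bx X R R', (if D ω = 0 then (0 : ℝ) else hq s (D ω) ^ 4 - 1)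
        ≤ ∑ ω ∈ Bx X R R', (2 * ((∏ p ∈ P.filter (fun p : ℕ => (p : ℤ) ∣ D ω),
            (1 + 8 / (p : ℝ))) ^ 4 - 1) + 1 / s) := Finset.sum_le_sum hpt
      _ = 2 * ∑ ω ∈ Bx X R R', ((∏ p ∈ P.filter (fun p : ℕ => (p : ℤ) ∣ D ω),
            (1 + 8 / (p : ℝ))) ^ 4 - 1) + ((Bx X R R').card : ℝ) * (1 / s) := by
          rw [Finset.sum_add_distrib, ← Finset.mul_sum, Finset.sum_const, nsmul_eq_mul]
      _ ≤ 2 * (2755200 * K1 / s * N) + (9 * N) * (1 / s) := by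
          refine add_le_add (mul_le_mul_of_nonneg_left hcore (by norm_num)) ?_
          exact mul_le_mul_of_nonneg_right (card_Bx X R R' hR1 hR1') (by positivity)
      _ = (5510400 * K1 + 9) / s * N := by ring
  · intro p hpP
    obtain ⟨h1, h2, h3⟩ := hPm p hpP
    have h4 := hav p h1.squarefree ?_ ?_ ?_ ?_
    · rw [h1.primeFactors, Finset.card_singleton, pow_one] at h4
      exact h4
    · intro p' hp' hd
      rw [(Nat.prime_dvd_prime_iff_eq hp' h1).1 hd]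
      exact hp p h1 h2
    · omega
    · omega
    · omega
  · intro p hpP q hqP hpq
    obtain ⟨h1, h2, h3⟩ := hPm p hpP
    obtain ⟨h1', h2', h3'⟩ := hPm q hqP
    have hcop : Nat.Coprime p q := (Nat.coprime_primes h1 h1').2 hpq.ne
    have hpq2 : p * q ≤ z ^ 2 := by rw [pow_two]; exact Nat.mul_le_mul h3 h3'
    have h4 := hav (p * q) ((Nat.squarefree_mul hcop).2 ⟨h1.squarefree, h1'.squarefree⟩) ?_ ?_ ?_ ?_
    · have h5 : (p * q).primeFactors.card ≤ 2 := by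
        rw [hcop.primeFactors_mul, h1.primeFactors, h1'.primeFactors]
        refine (Finset.card_union_le _ _).trans ?_
        simp
      have h6 : ∑ ω ∈ Bx X R R', (if (p : ℤ) ∣ D ω ∧ (q : ℤ) ∣ D ω then (1 : ℝ) else 0) ≤
          ∑ ω ∈ Bx X R R', (if ((p * q : ℕ) : ℤ) ∣ D ω then (1 : ℝ) else 0) := by
        refine Finset.sum_le_sum fun ω _ => ?_
        by_cases h7 : (p : ℤ) ∣ D ω ∧ (q : ℤ) ∣ D ω
        · have h8 : ((p * q : ℕ) : ℤ) ∣ D ω := by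
            rw [Int.natCast_dvd] at h7 ⊢
            rw [Int.natCast_dvd] at h7
            exact hcop.mul_dvd_of_dvd_of_dvd h7.1 h7.2
          rw [if_pos h7, if_pos h8]
        · rw [if_neg h7]; split_ifs <;> norm_num
      refine h6.trans (h4.trans ?_)
      have hp0 : (0 : ℝ) < p := by exact_mod_cast h1.pos
      have hq0 : (0 : ℝ) < q := by exact_mod_cast h1'.pos
      have h9 : (20 : ℝ) ^ (p * q).primeFactors.card ≤ 400 := by
        calc (20 : ℝ) ^ (p * q).primeFactors.card ≤ 20 ^ 2 := pow_le_pow_right₀ (by norm_num) h5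
          _ = 400 := by norm_num
      push_cast
      gcongr
    · intro p' hp' hd
      rcases (Nat.Prime.dvd_mul hp').1 hd with hd | hd
      · rw [(Nat.prime_dvd_prime_iff_eq hp' h1).1 hd]
        exact hp p h1 h2
      · rw [(Nat.prime_dvd_prime_iff_eq hp' h1').1 hd]
        exact hp q h1' h2'
    · omega
    · omega
    · omega

theorem t_AVGu (h : S_AV1u) : S_AVGu := by
  obtain ⟨K1, hK1, hAV1⟩ := h
  have hA : ∀ c : ℤ, c ≠ 0 → AV c K1 := by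
    intro c hc M A A' C C' X R R' hC hC' h1 h2 h3 h4 h5 h6 d hd hd' h7 h8 h9
    have h10 := (hAV1 c M A A' C C' X R R' hc hC hC' h1 h2 h3 h4 h5 h6).1 d hd hd' h7 h8 h9
    rw [sum_Bx X R R' (fun x t r => if (d : ℤ) ∣ Dl c M (xs A A' x t r) (ts C C' t r) then
      (1 : ℝ) else 0)]
    exact h10
  obtain ⟨s1, hs1⟩ : ∃ s1 : ℕ, s1 = Th := ⟨_, rfl⟩
  have hs1' : Th ≤ s1 := hs1.ge
  have hs10 : 0 < s1 := lt_of_lt_of_le Th_pos hs1'
  clear hs1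
  have hs11 : (0 : ℝ) < s1 := by exact_mod_cast hs10
  set K0 : ℝ := 5510400 * K1 + 9 with hK0
  have hK00 : 0 < K0 := by positivity
  set C0 : ℝ := ∏ p ∈ (Ioc 0 s1).filter Nat.Prime, (1 + 8 / (p : ℝ)) with hC0
  have hC01 : 1 ≤ C0 := by
    have h1 : ∏ p ∈ (Ioc 0 s1).filter Nat.Prime, (1 : ℝ) ≤ C0 := by
      refine Finset.prod_le_prod (fun _ _ => zero_le_one) fun p _ => ?_
      have : (0 : ℝ) ≤ 8 / p := by positivity
      linarith
    rwa [Finset.prod_const_one] at h1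
  have hC02 : 1 ≤ C0 ^ 4 := one_le_pow₀ hC01
  refine ⟨C0 ^ 4 * (K0 + 9 * s1), by positivity, ?_⟩
  intro s M A A' C C' hs hM hA1 hA2 hC hC' hp
  have hsr : (0 : ℝ) < s := by exact_mod_cast (by omega : 0 < s)
  obtain ⟨B2, hB2⟩ := zero_part K1 hK1
  -- the first part
  have hfirst : ∃ B0 : ℕ, ∀ B : ℕ, B0 ≤ B → ∀ (c : ℤ) (X R R' : ℕ), c ≠ 0 → c.natAbs ≤ B ^ 3 →
      B ≤ X ^ 4 → B ≤ R ^ 4 → B ≤ R' ^ 4 → X ≤ B ^ 2 → R ≤ B ^ 2 → R' ≤ B ^ 2 →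
      ∑ ω ∈ Bx X R R', (if Dl c M (xs A A' ω.1 ω.2.1 ω.2.2) (ts C C' ω.2.1 ω.2.2) = 0 then 0 else
        hq s (Dl c M (xs A A' ω.1 ω.2.1 ω.2.2) (ts C C' ω.2.1 ω.2.2)) ^ 4 - 1) ≤
        C0 ^ 4 * (K0 + 9 * s1) / s * ((X : ℝ) * R * R') := by
    rcases le_or_gt s1 s with hss | hss
    · obtain ⟨B0, hB0⟩ := avg_big K1 hK1 hA s M A A' C C' (hs1'.trans hss) hM hA1 hA2 hC hC' hp
      refine ⟨B0, fun B hB c X R R' hc hcB h1 h2 h3 h4 h5 h6 => ?_⟩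
      refine (hB0 B hB c X R R' hc hcB h1 h2 h3 h4 h5 h6).trans ?_
      refine mul_le_mul_of_nonneg_right ?_ (by positivity)
      refine div_le_div_of_nonneg_right ?_ hsr.le
      nlinarith
    · have hp' : ∀ p : ℕ, p.Prime → s1 < p → ¬ p ∣ M * A * A' ∧ ¬ (p : ℤ) ∣ C * C' :=
        fun p hp1 hp2 => hp p hp1 (hss.trans hp2)
      obtain ⟨B0, hB0⟩ := avg_big K1 hK1 hA s1 M A A' C C' hs1' hM hA1 hA2 hC hC' hp'
      refine ⟨max B0 1, fun B hB c X R R' hc hcB h1 h2 h3 h4 h5 h6 => ?_⟩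
      have hmain := hB0 B ((le_max_left _ _).trans hB) c X R R' hc hcB h1 h2 h3 h4 h5 h6
      have hB1 : 1 ≤ B := (le_max_right _ _).trans hB
      have hR1 : 1 ≤ R := by
        rcases Nat.eq_zero_or_pos R with h0 | h0
        · rw [h0] at h2; simp at h2; omega
        · exact h0
      have hR1' : 1 ≤ R' := by
        rcases Nat.eq_zero_or_pos R' with h0 | h0
        · rw [h0] at h3; simp at h3; omega
        · exact h0
      set D : ℤ × ℤ × ℤ → ℤ := fun ω => Dl c M (xs A A' ω.1 ω.2.1 ω.2.2) (ts C C' ω.2.1 ω.2.2)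
        with hD
      have hpt : ∀ ω ∈ Bx X R R', (if D ω = 0 then (0 : ℝ) else hq s (D ω) ^ 4 - 1) ≤
          C0 ^ 4 * (if D ω = 0 then (0 : ℝ) else hq s1 (D ω) ^ 4 - 1) + C0 ^ 4 := by
        intro ω _
        by_cases h0 : D ω = 0
        · rw [if_pos h0, if_pos h0]; linarith
        · rw [if_neg h0, if_neg h0]
          have h7 : hq s (D ω) ≤ C0 * hq s1 (D ω) := by
            rw [hq_split s s1 hss.le _ h0]
            refine mul_le_mul_of_nonneg_right ?_ (hq_nonneg _ _)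
            rw [hC0]
            refine prod_mono_real _ _ ?_ _ ?_
            · intro p hp1
              simp only [Finset.mem_filter, mem_Ioc] at hp1 ⊢
              exact ⟨⟨by omega, hp1.1.1.2⟩, hp1.1.2⟩
            · intro p
              have : (0 : ℝ) ≤ 8 / p := by positivity
              linarith
          have h8 : hq s (D ω) ^ 4 ≤ (C0 * hq s1 (D ω)) ^ 4 :=
            pow_le_pow_left₀ (hq_nonneg _ _) h7 4
          rw [mul_pow] at h8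
          nlinarith
      have hN0 : (0 : ℝ) ≤ (X : ℝ) * R * R' := by positivity
      calc ∑ ω ∈ Bx X R R', (if D ω = 0 then (0 : ℝ) else hq s (D ω) ^ 4 - 1)
          ≤ ∑ ω ∈ Bx X R R', (C0 ^ 4 * (if D ω = 0 then (0 : ℝ) else hq s1 (D ω) ^ 4 - 1) +
              C0 ^ 4) := Finset.sum_le_sum hpt
        _ = C0 ^ 4 * ∑ ω ∈ Bx X R R', (if D ω = 0 then (0 : ℝ) else hq s1 (D ω) ^ 4 - 1) +
              ((Bx X R R').card : ℝ) * C0 ^ 4 := by
            rw [Finset.sum_add_distrib, ← Finset.mul_sum, Finset.sum_const, nsmul_eq_mul]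
        _ ≤ C0 ^ 4 * (K0 / s1 * ((X : ℝ) * R * R')) + (9 * ((X : ℝ) * R * R')) * C0 ^ 4 := by
            refine add_le_add (mul_le_mul_of_nonneg_left hmain (by positivity)) ?_
            exact mul_le_mul_of_nonneg_right (card_Bx X R R' hR1 hR1') (by positivity)
        _ = (C0 ^ 4 * (K0 + 9 * s1)) / s1 * ((X : ℝ) * R * R') := by
            field_simp
        _ ≤ C0 ^ 4 * (K0 + 9 * s1) / s * ((X : ℝ) * R * R') := by
            refine mul_le_mul_of_nonneg_right ?_ hN0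
            refine div_le_div_of_nonneg_left (by positivity) hsr ?_
            exact_mod_cast hss.le
  obtain ⟨B1, hB1⟩ := hfirst
  refine ⟨max (max B1 B2) 1, fun B hB c X R R' hc hcB h1 h2 h3 h4 h5 h6 => ⟨?_, ?_⟩⟩
  · have h7 := hB1 B (by omega) c X R R' hc hcB h1 h2 h3 h4 h5 h6
    rw [sum_Bx X R R' (fun x t r => if Dl c M (xs A A' x t r) (ts C C' t r) = 0 then (0 : ℝ) else
      hq s (Dl c M (xs A A' x t r) (ts C C' t r)) ^ 4 - 1)] at h7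
    exact h7
  · have hpos : ∀ Y : ℕ, B ≤ Y ^ 4 → 1 ≤ Y := by
      intro Y hY
      rcases Nat.eq_zero_or_pos Y with h0 | h0
      · rw [h0] at hY; simp at hY; omega
      · exact h0
    have h7 := (hAV1 c M A A' C C' X R R' hc hC hC' hM hA1 hA2 (hpos X h1) (hpos R h2) (hpos R' h3)).2
    exact h7.trans (hB2 B (by omega) X R R' h1 h2 h3)

end Pool.Agent.N701.QU
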